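import Pool.Agent.Helper14.W3.StA

/-!
# Project W3, module N2: the trace from level 3M to level M as a cusp form
-/

set_option autoImplicit false

open UpperHalfPlane CongruenceSubgroup Matrix.SpecialLinearGroup
open scoped MatrixGroups ModularForm

namespace Pool.Agent.Helper67.W3

open Pool.Agent.Helper14.CV Pool.Agent.Helper14.W3

/-- the matrix with rows 1 0 and jM 1 -/
private def sg (M : ℕ) (j : ℤ) : SL(2, ℤ) :=
  ⟨!![1, 0; j * (M : ℤ), 1], by simp [Matrix.det_fin_two]⟩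

private theorem mem0 (N : ℕ) (g : SL(2, ℤ)) : g ∈ Gamma0 N ↔ (N : ℤ) ∣ g 1 0 := by
  rw [Gamma0_mem, ZMod.intCast_zmod_eq_zero_iff_dvd]

private theorem sg_mem (M : ℕ) (j : ℤ) : sg M j ∈ Gamma0 M := by
  rw [mem0]
  simp [sg]

private theorem G0_mem (N : ℕ) (g : SL(2, ℤ)) : mapGL ℝ g ∈ G0 N ↔ g ∈ Gamma0 N := by
  constructor
  · rintro ⟨γ, hγ, he⟩
    rw [mapGL_injective he] at hγ
    exact hγ
  · intro h
    exact Subgroup.mem_map_of_mem _ h

private theorem sg_mul (M : ℕ) (j : ℤ) (g : SL(2, ℤ)) :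
    (sg M j * g) 1 0 = j * M * g 0 0 + g 1 0 := by
  rw [Matrix.SpecialLinearGroup.coe_mul, Matrix.mul_apply, Fin.sum_univ_two]
  simp [sg]

private theorem sg_add (M : ℕ) (i j : ℤ) : sg M i * sg M j = sg M (i + j) := by
  apply Subtype.ext
  rw [Matrix.SpecialLinearGroup.coe_mul]
  simp only [sg]
  ext a b
  fin_cases a <;> fin_cases b <;> simp [Matrix.mul_apply, Fin.sum_univ_two]
  ring

private theorem sg_inv (M : ℕ) (j : ℤ) : (sg M j)⁻¹ = sg M (-j) := by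
  apply inv_eq_of_mul_eq_one_right
  rw [sg_add, add_neg_cancel]
  apply Subtype.ext
  simp only [sg]
  ext a b
  fin_cases a <;> fin_cases b <;> simp

/-- every element of `Γ₀(M)` is in one of the three classes -/
private theorem three_classes {M : ℕ} (h3 : 3 ∣ M) {g : SL(2, ℤ)} (hg : g ∈ Gamma0 M) :
    ∃ j : Fin 3, sg M (j : ℕ) * g ∈ Gamma0 (3 * M) := by
  rw [mem0] at hg
  obtain ⟨c, hc⟩ := hg
  obtain ⟨m, hm⟩ := h3
  have hdet := Matrix.SpecialLinearGroup.det_coe g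
  rw [Matrix.det_fin_two] at hdet
  have hnd : ¬ (3 : ℤ) ∣ g 0 0 := by
    rintro ⟨a, ha⟩
    rw [hc, ha] at hdet
    have : (3 : ℤ) ∣ 1 := by
      refine ⟨a * g 1 1 - g 0 1 * (m * c), ?_⟩
      rw [hm] at hdet
      push_cast at hdet
      linear_combination -hdet
    omega
  have key : ∃ j : Fin 3, (3 : ℤ) ∣ ((j : ℕ) : ℤ) * g 0 0 + c := by
    by_contra hcon
    push Not at hcon
    have a0 := hcon 0
    have a1 := hcon 1
    have a2 := hcon 2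
    simp at a0 a1 a2
    have hb : g 0 0 % 3 = 1 ∨ g 0 0 % 3 = 2 := by omega
    have hd : c % 3 = 1 ∨ c % 3 = 2 := by omega
    rcases hb with hb | hb <;> rcases hd with hd | hd <;> omega
  obtain ⟨j, r, hr⟩ := key
  refine ⟨j, ?_⟩
  rw [mem0, sg_mul, hc]
  refine ⟨r, ?_⟩
  push_cast
  linear_combination (M : ℤ) * hr

/-- Module N2. -/
theorem hN2 : S3N2 := by
  classical
  intro M hM f h3
  have hM0 : M ≠ 0 := hM.out
  have hM3 : NeZero (3 * M) := ⟨by omega⟩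
  have hle : G0 M ≤ 𝒮ℒ := by
    rintro _ ⟨γ, -, rfl⟩
    exact ⟨γ, rfl⟩
  have hfin : (G0 (3 * M)).IsFiniteRelIndex (G0 M) := Subgroup.isFiniteRelIndex_of_le_right _ hle
  refine ⟨CuspForm.trace (G0 M) f, fun z hz => ?_⟩
  set S : Fin 3 → ↥(G0 M) := fun j => ⟨mapGL ℝ (sg M (j : ℕ)), (G0_mem M _).2 (sg_mem M _)⟩ with hS
  let _ : Fintype (↥(G0 M) ⧸ (G0 (3 * M)).subgroupOf (G0 M)) := Fintype.ofFinite _
  have hmk : ∀ x y : ↥(G0 M), (⟦x⟧ : ↥(G0 M) ⧸ (G0 (3 * M)).subgroupOf (G0 M)) = ⟦y⟧ ↔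
      ((x⁻¹ * y : ↥(G0 M)) : GL (Fin 2) ℝ) ∈ G0 (3 * M) := by
    intro x y
    rw [Quotient.eq, QuotientGroup.leftRel_apply, Subgroup.mem_subgroupOf]
  have hinj : Function.Injective
      (fun j : Fin 3 => (⟦(S j)⁻¹⟧ : ↥(G0 M) ⧸ (G0 (3 * M)).subgroupOf (G0 M))) := by
    intro i j h
    simp only at h
    rw [hmk, inv_inv] at h
    have h5 : (S i * (S j)⁻¹ : ↥(G0 M)) = (⟨mapGL ℝ (sg M ((i : ℕ) + -(j : ℕ))),
        (G0_mem M _).2 (sg_mem M _)⟩ : ↥(G0 M)) := by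
      apply Subtype.ext
      change mapGL ℝ (sg M (i : ℕ)) * (mapGL ℝ (sg M (j : ℕ)))⁻¹ =
        mapGL ℝ (sg M ((i : ℕ) + -(j : ℕ)))
      rw [← sg_add, ← sg_inv, map_mul, map_inv]
    rw [h5] at h
    have h6 := (mem0 _ _).1 ((G0_mem _ _).1 h)
    obtain ⟨c, hc⟩ := h6
    have hc' : ((i : ℕ) + -(j : ℕ)) * (M : ℤ) = 3 * M * c := by
      have h7 : (sg M ((i : ℕ) + -(j : ℕ))) 1 0 = (((i : ℕ) : ℤ) + -((j : ℕ) : ℤ)) * (M : ℤ) := by
        simp [sg]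
      rw [h7] at hc
      push_cast at hc ⊢
      exact hc
    have h8 : (M : ℤ) * (((i : ℕ) : ℤ) - ((j : ℕ) : ℤ) - 3 * c) = 0 := by
      linear_combination hc'
    have h9 : ((i : ℕ) : ℤ) - ((j : ℕ) : ℤ) - 3 * c = 0 := by
      rcases mul_eq_zero.1 h8 with h4 | h4
      · exact absurd (by exact_mod_cast h4) hM0
      · exact h4
    have hi := i.2
    have hj := j.2
    apply Fin.ext
    omega
  have hsurj : Function.Surjective
      (fun j : Fin 3 => (⟦(S j)⁻¹⟧ : ↥(G0 M) ⧸ (G0 (3 * M)).subgroupOf (G0 M))) := by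
    intro q
    induction q using Quotient.inductionOn with
    | h x =>
      obtain ⟨x, γ, hγ, rfl⟩ := x
      obtain ⟨j, hj⟩ := three_classes h3 hγ
      refine ⟨j, ?_⟩
      simp only
      rw [hmk, inv_inv]
      have h5 : (S j * (⟨mapGL ℝ γ, γ, hγ, rfl⟩ : ↥(G0 M)) : ↥(G0 M)) =
          (⟨mapGL ℝ (sg M (j : ℕ) * γ),
            (G0_mem M _).2 (mul_mem (sg_mem M _) hγ)⟩ : ↥(G0 M)) := by
        apply Subtype.ext
        change mapGL ℝ (sg M (j : ℕ)) * mapGL ℝ γ = mapGL ℝ (sg M (j : ℕ) * γ)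
        rw [map_mul]
      rw [h5]
      exact (G0_mem _ _).2 hj
  set w : ℍ := ⟨z, hz⟩ with hw
  have hwz : (w : ℂ) = z := rfl
  have e0 : ∀ (N : ℕ) (k : CuspForm (G0 N) 2) (v : ℍ), fz k (v : ℂ) = k v := by
    intro N k v
    unfold fz
    rw [UpperHalfPlane.ofComplex_apply]
  have e2 : ∀ j : ℤ, ((f : ℍ → ℂ) ∣[(2 : ℤ)] (mapGL ℝ (sg M j))) w
      = ((j * M * z + 1) ^ 2)⁻¹ * fz f (z / (j * M * z + 1)) := by
    intro j
    refine (ModularForm.SL_slash_apply (k := 2) (f : ℍ → ℂ) (sg M j) w).trans ?_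
    have h6 : ((sg M j • w : ℍ) : ℂ) = z / (j * M * z + 1) := by
      rw [UpperHalfPlane.coe_specialLinearGroup_apply]
      simp [sg, hwz]
    have h7 : UpperHalfPlane.denom (sg M j) w = j * M * z + 1 := by
      rw [ModularGroup.denom_apply]
      simp [sg, hwz]
    rw [← h6, e0, h7, mul_comm, zpow_neg]
    rfl
  have hs : ∑ q : ↥(G0 M) ⧸ (G0 (3 * M)).subgroupOf (G0 M), SlashInvariantForm.quotientFunc f q
      = ∑ j : Fin 3, SlashInvariantForm.quotientFunc f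
        (⟦(S j)⁻¹⟧ : ↥(G0 M) ⧸ (G0 (3 * M)).subgroupOf (G0 M)) :=
    (Function.Bijective.sum_comp ⟨hinj, hsurj⟩ _).symm
  have e1 : CuspForm.trace (G0 M) f w
      = ∑ j : Fin 3, ((f : ℍ → ℂ) ∣[(2 : ℤ)] (mapGL ℝ (sg M (j : ℕ)))) w := by
    rw [CuspForm.coe_trace]
    refine (congrFun hs w).trans ?_
    rw [Finset.sum_apply]
    refine Finset.sum_congr rfl fun j _ => ?_
    rw [SlashInvariantForm.quotientFunc_mk, Subgroup.coe_inv, inv_inv]
  rw [← hwz, e0, e1, Fin.sum_univ_three, e2, e2, e2, hwz]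
  simp

end Pool.Agent.Helper67.W3
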